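import Pool.Agent.R584.Sing2

set_option autoImplicit false

/-!
# A partial order all of whose cofinal subsets have a maximal chain of singular size
-/

namespace Pool.Agent.Results.MP_43ca77_lc.SingularMaximalChains

open Cardinal Set Pool.Agent.R584.Sing

universe u

/-- `Q` has property (R): every maximal chain of `Q` is finite or has regular cardinality. -/
def PropertyR {P : Type u} [PartialOrder P] (Q : Set P) : Prop :=
  ∀ C : Set Q, IsMaxChain (· ≤ ·) C → C.Finite ∨ (#C).IsRegular

theorem singular (lam : Cardinal.{u}) (hs : lam.IsSingular) :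
    ∃ (P : Type u) (_ : PartialOrder P), ∀ Q : Set P, IsCofinal Q →
      ∃ C : Set Q, IsMaxChain (· ≤ ·) C ∧ #C = lam := by
  have hlam : ℵ₀ ≤ lam := hs.aleph0_le
  have hreg : (Order.succ lam).IsRegular := isRegular_succ hlam
  let K : Type u := (Order.succ lam).ord.ToType
  have hK : #K = Order.succ lam := mk_ord_toType _
  have : NoMaxOrder K := Cardinal.noMaxOrder hreg.1
  have : Nonempty K := by
    rw [← mk_ne_zero_iff, hK]
    exact Order.succ_ne_bot _
  have hIo : ∀ a : K, #(Iio a) ≤ lam := fun a => by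
    have : #(Iio a) < #K := mk_Iio_lt a (by simp [K])
    rw [hK] at this
    exact Order.lt_succ_iff.1 this
  have hIc : ∀ a : K, #(Iic a) ≤ lam := fun a => by
    obtain ⟨b, hb⟩ := exists_gt a
    exact (mk_le_mk_of_subset fun x hx => lt_of_le_of_lt hx hb).trans (hIo b)
  have hbd : SmallBdd K lam := by
    intro S hS
    by_contra hcon
    push Not at hcon
    have h1 : IsCofinal S := fun b => hcon b
    have h2 := Order.cof_le h1
    rw [Ordinal.cof_toType, hreg.cof_ord] at h2
    exact absurd (h2.trans hS) (not_le.2 (Order.lt_succ lam))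
  obtain ⟨I, B, hI, hB, hdis⟩ := ulam hlam hIo hbd hK
  have hBc : ∀ i, Unb (B i)ᶜ := by
    intro i a
    have : ∃ j : I, j ≠ i := by
      by_contra hcon
      push Not at hcon
      have h1 : #I ≤ 1 := Cardinal.le_one_iff_subsingleton.2 ⟨fun a b => (hcon a).trans (hcon b).symm⟩
      rw [hI] at h1
      exact absurd (hreg.1.trans h1) (not_le.2 one_lt_aleph0)
    obtain ⟨j, hj⟩ := this
    obtain ⟨b, hb, hab⟩ := (hB j).unb a
    exact ⟨b, fun h => Set.disjoint_left.1 (hdis j i hj) hb h, hab⟩
  exact ⟨Pt B, inferInstance, fun Q hQ => main hs hIc hbd hdis hB hBc hI Q hQ⟩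

/-- For every singular cardinal `lam` (for example `ℵ_ω`) there is a partially ordered set such
that each of its cofinal subsets fails property (R), because it has a maximal chain of cardinality
exactly `lam`. -/
theorem result (lam : Cardinal.{u}) (hlam : lam.IsSingular) :
    ∃ (P : Type u) (_ : PartialOrder P), ∀ Q : Set P, IsCofinal Q →
      ¬ PropertyR Q ∧ ∃ C : Set Q, IsMaxChain (· ≤ ·) C ∧ #C = lam := by
  obtain ⟨P, inst, h⟩ := singular lam hlam
  refine ⟨P, inst, fun Q hQ => ⟨fun hR => ?_, h Q hQ⟩⟩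
  obtain ⟨C, h1, h2⟩ := h Q hQ
  rcases hR C h1 with h3 | h3
  · have h4 := hlam.aleph0_le
    rw [← h2] at h4
    exact absurd (lt_aleph0_iff_finite.2 h3) (not_lt.2 h4)
  · rw [h2] at h3
    exact h3.not_isSingular hlam

/-- There is a partially ordered set no cofinal subset of which has property (R). -/
theorem exists_poset :
    ∃ (P : Type u) (_ : PartialOrder P), ¬ ∃ Q : Set P, IsCofinal Q ∧ PropertyR Q := by
  obtain ⟨P, inst, h⟩ := result (ℵ_ Ordinal.omega0) isSingular_aleph_omega0
  exact ⟨P, inst, fun ⟨Q, hQ, hR⟩ => (h Q hQ).1 hR⟩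

end Pool.Agent.Results.MP_43ca77_lc.SingularMaximalChains
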